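import Pool.Agent.Helper965.MinCover

set_option autoImplicit false

universe u

namespace Pool.Agent.Results.MP_6072c5_lc.JoinWithCut

open Pool.Agent.Helper425.PA Pool.Agent.Helper965.MinCover

/-- Let `M` be a countably saturated model of Peano arithmetic and let `o = deg ω`.
(1) Every degree `z` has a join `b` with `o`; every `c ≤ b` is below `z` or above `o`, and if `z`
is not above `o` then `b` is a minimal cover of `z`.
(2) No regular set (all initial segments `M`-finite) computes `ω`. -/
theorem result (M : Type u) [CommSemiring M] [LinearOrder M] [PeanoModel M]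
    (hsat : CountablySaturated M) :
    (∀ z : Degree M, ∃ b : Degree M, IsLUB {z, deg (omega M)} b ∧
      (∀ c : Degree M, c ≤ b → c ≤ z ∨ deg (omega M) ≤ c) ∧
      (¬ deg (omega M) ≤ z → z ⋖ b)) ∧
    (∀ Z : Set M, (∀ a : M, ∃ k : M, El k = Z ∩ Set.Iio a) →
      ¬ (deg (omega M) : Degree M) ≤ deg Z) := by
  refine ⟨fun z => ?_, fun Z hZ h => ?_⟩
  · obtain ⟨Z, rfl⟩ := exists_rep z
    have hdi : ∀ c : Degree M, c ≤ deg (jn Z (omega M)) → c ≤ deg Z ∨ deg (omega M) ≤ c := by
      intro c hc
      obtain ⟨C, rfl⟩ := exists_rep c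
      rcases dichotomy hsat (tred_iff.1 hc) with h | h
      · exact Or.inl (tred_iff.2 h)
      · exact Or.inr (tred_iff.2 h)
    have hlub : IsLUB {deg Z, deg (omega M)} (deg (jn Z (omega M))) := by
      refine ⟨?_, ?_⟩
      · rintro y (rfl | rfl)
        · exact tred_iff.2 (ered_jn_left _ _)
        · exact tred_iff.2 (ered_jn_right _ _)
      · intro w hw
        obtain ⟨W, rfl⟩ := exists_rep w
        exact tred_iff.2 (jn_le (tred_iff.1 (hw (Or.inl rfl))) (tred_iff.1 (hw (Or.inr rfl))))
    refine ⟨deg (jn Z (omega M)), hlub, hdi, fun hz => ?_⟩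
    refine ⟨lt_of_le_not_ge (hlub.1 (Or.inl rfl)) fun h => hz ((hlub.1 (Or.inr rfl)).trans h), ?_⟩
    intro c h1 h2
    rcases hdi c h2.le with h | h
    · exact absurd h1 (not_lt_of_ge h)
    · exact absurd h2 (not_lt_of_ge (hlub.2 (by
        rintro y (rfl | rfl)
        · exact h1.le
        · exact h)))
  · have h1 : SD (Lit Z) := SD_of_regular hsat (fun a => by
      obtain ⟨k, hk⟩ := hZ a
      refine ⟨k, fun x => ?_⟩
      have : x ∈ El k ↔ x ∈ Z ∩ Set.Iio a := by rw [hk]
      exact this)
    exact not_SD_of_ered (exists_nonstd hsat) (tred_iff.1 h) h1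

end Pool.Agent.Results.MP_6072c5_lc.JoinWithCut
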